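import Pool.Agent.H5St.Profile

/-!
# Feasibility of the three-valued density mixed with the constant density

The demand of a tail is `(1 - τ)` times the demand of the three-valued density plus `τ (1 + s)`
times the mass of the tail; the points reached in the row `0` have the weight
`U = (1 - τ) (θ + s) + τ (1 + s)`, those in the row `1` the weight `1 + s`.
-/

set_option autoImplicit false

namespace Pool.Agent.H65T

open Pool.Agent.H5St

section

variable {θ s f x c m1 m2 : ℝ}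

theorem t_one (hθ : 0 ≤ θ) (hθ1 : θ ≤ 1) (hs : 0 ≤ s) (hs1 : s ≤ 1)
    (h1 : s * m1 = f) (h2 : (1 - s) * m2 = 2 * f) (h12 : m1 ≤ 1 + s - m2)
    {dl : ℝ} (hdl : 0 ≤ dl) (hdls : dl ≤ s) (hfd : f ≤ s - dl)
    (hf : 0 ≤ f) (hx0 : 0 ≤ x) (hx1 : x ≤ 1) (hc : x ≤ c)
    (hc2 : 2 * x - (1 - s) ≤ c) (hv : (1 + s) * x - c ≤ f) (hcu : c ≤ 1 + s) :
    tl θ s m1 m2 c ≤ (s + θ - (1 - θ) * dl) * (1 - x) + (1 + s) / 2 * (1 + s - c) := by
  refine tl_le h1 h2 h12 ?_ ?_ ?_
  · have e1 : (1 - θ) * (f - s + dl) ≤ 0 :=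
      mul_nonpos_of_nonneg_of_nonpos (by linarith) (by linarith)
    have e2 : (θ + (2 - θ) * s) * x ≤ (θ + (2 - θ) * s) * c := by
      refine mul_le_mul_of_nonneg_left hc ?_
      have : 0 ≤ (2 - θ) * s := mul_nonneg (by linarith) hs
      linarith
    have e3 : 0 ≤ (1 - θ) * (s + dl) * x :=
      mul_nonneg (mul_nonneg (by linarith) (by linarith)) hx0
    nlinarith
  · have e1 : 1 + s - c ≤ (1 + s) * (1 - x) + f := by linarith
    have e2 : θ * (1 + s - c) ≤ θ * ((1 + s) * (1 - x) + f) :=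
      mul_le_mul_of_nonneg_left e1 (by linarith)
    have e3 : 0 ≤ (1 - θ) * ((s - dl) * (1 - x)) :=
      mul_nonneg (by linarith) (mul_nonneg (by linarith) (by linarith))
    have e4 : 0 ≤ (1 - θ) * f := mul_nonneg (by linarith) hf
    nlinarith
  · rcases le_total 0 (θ - (1 - s) / 2) with hg | hg
    · have e1 : (θ - (1 - s) / 2) * (1 + s - c) ≤ (θ - (1 - s) / 2) * (2 * (1 - x)) :=
        mul_le_mul_of_nonneg_left (by linarith) hg
      have e2 : 0 ≤ (1 - θ) * (1 - dl) * (1 - x) :=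
        mul_nonneg (mul_nonneg (by linarith) (by linarith)) (by linarith)
      nlinarith
    · have e1 : (θ - (1 - s) / 2) * (1 + s - c) ≤ 0 :=
        mul_nonpos_of_nonpos_of_nonneg hg (by linarith)
      have e2 : 0 ≤ (s + θ - (1 - θ) * dl) * (1 - x) := by
        refine mul_nonneg ?_ (by linarith)
        have : (1 - θ) * dl ≤ 1 * s := mul_le_mul (by linarith) hdls hdl zero_le_one
        linarith
      nlinarith

/-- The case of a late first point of the row `0`. -/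
theorem t_late (hθ1 : θ ≤ 1) (hs : 0 ≤ s)
    (h1 : s * m1 = f) (h2 : (1 - s) * m2 = 2 * f) (h12 : m1 ≤ 1 + s - m2)
    (hfs : f ≤ s * x) (hc : x ≤ c)
    (hc2 : 2 * x - (1 - s) ≤ c) (hv : (1 + s) * x - c ≤ f) :
    tl θ s m1 m2 c ≤ (1 + s) * (1 - x) + (θ - (1 - s) / 2) * (1 + s - c) := by
  refine tl_le h1 h2 h12 ?_ ?_ ?_
  · have e1 : (1 - θ) * f ≤ (1 - θ) * (s * x) := mul_le_mul_of_nonneg_left hfs (by linarith)
    have e2 : (1 - θ) * s * x ≤ (1 - θ) * s * c :=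
      mul_le_mul_of_nonneg_left hc (mul_nonneg (by linarith) hs)
    have e3 : (1 + s) * x ≤ (1 + s) * c := mul_le_mul_of_nonneg_left hc (by linarith)
    nlinarith
  · nlinarith
  · nlinarith [mul_le_mul_of_nonneg_left hc2 (show (0 : ℝ) ≤ (1 + s) / 2 by linarith)]

/-- The case of an early first point of the row `0` and a late first point of the row `1`. -/
theorem t_mid (hθ1 : θ ≤ 1) (hs : 0 ≤ s) (hs1 : s ≤ 1)
    (h1 : s * m1 = f) (h2 : (1 - s) * m2 = 2 * f) (h12 : m1 ≤ 1 + s - m2)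
    {x' w : ℝ} (hfs : f ≤ s * x') (hc : x ≤ c)
    (hc2 : 2 * x - (1 - s) ≤ c) (hv : (1 + s) * x - c ≤ f) (hw0 : 0 ≤ w)
    (hw : (1 - s) * x' + f - 2 * x + c ≤ w) :
    tl θ s m1 m2 c ≤ (1 + s) * (1 - x) + (θ - (1 - s) / 2) * (1 + s - c) +
      (1 - θ) * s * w := by
  have hW : 0 ≤ (1 - θ) * s * w := mul_nonneg (mul_nonneg (by linarith) hs) hw0
  refine tl_le h1 h2 h12 ?_ ?_ ?_
  · have e3 : s * ((1 - s) * x' + f - 2 * x + c) ≤ s * w := mul_le_mul_of_nonneg_left hw hs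
    have e4 : (1 - s) * f ≤ (1 - s) * (s * x') := mul_le_mul_of_nonneg_left hfs (by linarith)
    have e5 : f - 2 * s * x + s * c ≤ s * w := by nlinarith
    have e6 : (1 - θ) * (f - 2 * s * x + s * c) ≤ (1 - θ) * (s * w) :=
      mul_le_mul_of_nonneg_left e5 (by linarith)
    have e7 : (1 + (3 - 2 * θ) * s) * x ≤ (1 + (3 - 2 * θ) * s) * c := by
      refine mul_le_mul_of_nonneg_left hc ?_
      have : 0 ≤ (3 - 2 * θ) * s := mul_nonneg (by linarith) hs
      linarith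
    nlinarith
  · nlinarith
  · nlinarith [mul_le_mul_of_nonneg_left hc2 (show (0 : ℝ) ≤ (1 + s) / 2 by linarith)]

/-- The case of an early first point of the row `0` and a first point of the row `1` before `x'`;
`a'` is the mass of the row `0` after `x'`. -/
theorem t_early (hθ1 : θ ≤ 1) (hs : 0 ≤ s)
    (h1 : s * m1 = f) (h2 : (1 - s) * m2 = 2 * f) (h12 : m1 ≤ 1 + s - m2)
    {a' : ℝ} (ha' : f ≤ a') (hf : 0 ≤ f) (hx0 : 0 ≤ x) (hc : x ≤ c)
    (hc2 : 2 * x - (1 - s) ≤ c) (hv : (1 + s) * x - c ≤ f) :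
    tl θ s m1 m2 c ≤ (1 + s) * (1 - x) + (θ - (1 - s) / 2) * (1 + s - c) +
      (1 - θ) * a' := by
  have ea : (1 - θ) * f ≤ (1 - θ) * a' := mul_le_mul_of_nonneg_left ha' (by linarith)
  have ef : 0 ≤ (1 - θ) * f := mul_nonneg (by linarith) hf
  refine tl_le h1 h2 h12 ?_ ?_ ?_
  · have e1 : (1 + s) * x ≤ (1 + s) * c := mul_le_mul_of_nonneg_left hc (by linarith)
    have e2 : 0 ≤ (1 - θ) * s * c := mul_nonneg (mul_nonneg (by linarith) hs) (by linarith)
    nlinarith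
  · nlinarith
  · nlinarith [mul_le_mul_of_nonneg_left hc2 (show (0 : ℝ) ≤ (1 + s) / 2 by linarith)]

end

variable {L l' : ℕ} {s f : ℝ} {C0 C1 : ℕ → ℝ}

/-- **Feasibility** of the mixed density. -/
theorem feas3 (H : Prof L s f C0 C1 l') {θ τ dl c h i0 i1 : ℝ} (hθ : 0 ≤ θ) (hθ1 : θ ≤ 1)
    (hτ0 : 0 ≤ τ) (hτ1 : τ ≤ 1) (hτ : 2 * ((1 - θ) * (1 - τ)) ≤ 1 + τ) (hc : 1 + τ ≤ c)
    (hdl : 0 ≤ dl) (hdls : dl ≤ s) (hfd : f ≤ s - dl) {z0 z1 : ℕ}
    (hz0 : z0 ≤ L) (hz1 : z1 ≤ L)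
    (hi0 : c * (1 - (z0 : ℝ) / L) ≤ i0) (hi1 : c * (1 - (z1 : ℝ) / L) ≤ i1)
    (hi : 2 * (1 - (z0 : ℝ) / L) ≤ i0 + i1)
    (hm : z0 ≤ z1 → z1 - z0 ≤ L - z1 → h * (1 - (z0 : ℝ) / L) ≤ i1)
    (hl : z0 ≤ z1 → L - z1 ≤ z1 - z0 → 2 * (1 - (z1 : ℝ) / L) ≤ i1)
    (hloss : 1 - h ≤ dl ∨
      (1 - τ) * (1 + 2 * s + θ - (1 - θ) * dl) + 2 * (1 + s) * τ ≤
        ((1 - τ) * (θ + s) + τ * (1 + s)) * c + (1 + s) * h) :
    (1 - τ) * (tl θ s (f / s) (2 * f / (1 - s)) (C0 z0) + (1 + s) / 2 * (1 - s - C1 z1)) +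
      τ * (1 + s) * ((1 + s - C0 z0) + (1 - s - C1 z1)) ≤
      ((1 - τ) * (θ + s) + τ * (1 + s)) * i0 + (1 + s) * i1 := by
  obtain ⟨x, hx⟩ : ∃ x, x = (z0 : ℝ) / L := ⟨_, rfl⟩
  obtain ⟨y, hy⟩ : ∃ y, y = (z1 : ℝ) / L := ⟨_, rfl⟩
  obtain ⟨x', hx'⟩ : ∃ x', x' = (l' : ℝ) / L := ⟨_, rfl⟩
  have px := pos_div H.hL hz0
  have py := pos_div H.hL hz1
  have px' := pos_div H.hL H.hl'
  have l0 := H.low0 z0 hz0
  have l1 := H.low z0 hz0
  have l2 := H.low z1 hz1
  have l3 := H.low l' H.hl'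
  have v0 := H.hv z0 hz0
  have fe := H.hf
  have f1 := H.f_le
  have u0 := H.up0 z0
  have u1 := H.up0 z1
  have w0 := H.up1 z0
  have hs := H.hs
  have hs1 := H.hs1
  rw [← hx] at px l0 l1 v0 hi0 hi hm
  rw [← hy] at py l2 hi1 hl
  rw [← hx'] at px' l3 fe f1
  obtain ⟨d, hd⟩ : ∃ d, d = C0 z0 := ⟨_, rfl⟩
  obtain ⟨β, hβ⟩ : ∃ β, β = 1 - s - C1 z1 := ⟨_, rfl⟩
  obtain ⟨T, hT⟩ : ∃ T, T = tl θ s (f / s) (2 * f / (1 - s)) d := ⟨_, rfl⟩
  rw [← hβ, ← hd, ← hT]
  rw [← hd] at l0 l1 v0 u0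
  have hd2 : 2 * x - (1 - s) ≤ d := by linarith
  have hβy : β ≤ 2 * (1 - y) - (1 + s - C0 z1) := by
    rw [hβ]
    linarith
  have hβY : β ≤ 2 * (1 - y) := by linarith
  have hθ' : 0 ≤ 1 - θ := by linarith
  have hτ' : 0 ≤ 1 - τ := by linarith
  have hs2 : 0 ≤ 1 + s := by linarith
  -- the weights
  obtain ⟨U, hU⟩ : ∃ U, U = (1 - τ) * (θ + s) + τ * (1 + s) := ⟨_, rfl⟩
  obtain ⟨W, hW⟩ : ∃ W, W = (1 - θ) * (1 - τ) := ⟨_, rfl⟩
  have hUW : U + W = 1 + s := by rw [hU, hW]; ring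
  have hU0 : 0 ≤ U := by
    rw [hU]
    exact add_nonneg (mul_nonneg hτ' (by linarith)) (mul_nonneg hτ0 hs2)
  have hW0 : 0 ≤ W := by rw [hW]; exact mul_nonneg hθ' hτ'
  rw [← hU] at hloss ⊢
  rw [← hW] at hτ
  -- both rows
  have htot : U * (2 * (1 - x)) ≤ U * (i0 + i1) := mul_le_mul_of_nonneg_left hi hU0
  have hone := t_one hθ hθ1 hs hs1 H.m1_eq H.m2_eq H.m_le hdl hdls hfd H.hf0 px.1 px.2 l0 hd2 v0 u0
  rw [← hT] at hone
  rcases le_total z1 z0 with hz | hz
  · -- the first point of the row `1` is earlier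
    have h1 : C0 z1 ≤ d := by rw [hd]; exact H.mono0 hz
    have e0 : (1 - τ) * T ≤ (1 - τ) *
        ((s + θ - (1 - θ) * dl) * (1 - x) + (1 + s) / 2 * (1 + s - d)) :=
      mul_le_mul_of_nonneg_left hone hτ'
    have e1 : (1 + s) * (1 + τ) / 2 * ((1 + s - d) + β) ≤ (1 + s) * (1 + τ) / 2 * (2 * (1 - y)) :=
      mul_le_mul_of_nonneg_left (by linarith) (by positivity)
    have e2 : U * (1 - x) ≤ U * i0 := by
      refine mul_le_mul_of_nonneg_left (le_trans ?_ hi0) hU0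
      have := mul_le_mul_of_nonneg_right (show 1 ≤ c by linarith) (show 0 ≤ 1 - x by linarith [px.2])
      linarith
    have e3 : (1 + s) * ((1 + τ) * (1 - y)) ≤ (1 + s) * i1 := by
      refine mul_le_mul_of_nonneg_left (le_trans ?_ hi1) hs2
      exact mul_le_mul_of_nonneg_right hc (by linarith [py.2])
    have e4 : 0 ≤ (1 - τ) * ((1 - θ) * dl) * (1 - x) :=
      mul_nonneg (mul_nonneg hτ' (mul_nonneg hθ' hdl)) (by linarith [px.2])
    have e5 : 0 ≤ τ * (1 + s) * (1 - x) :=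
      mul_nonneg (mul_nonneg hτ0 hs2) (by linarith [px.2])
    rw [hU] at e2 ⊢
    nlinarith
  · have h1 : C1 z0 ≤ C1 z1 := H.mono1 hz
    have hβx : β ≤ 2 * (1 - x) - (1 + s - d) := by
      rw [hβ]
      linarith
    rcases le_total (z1 - z0) (L - z1) with h' | h'
    · -- the middle range
      have hmi := hm hz h'
      have e0 : (1 - τ) * T ≤ (1 - τ) *
          ((s + θ - (1 - θ) * dl) * (1 - x) + (1 + s) / 2 * (1 + s - d)) :=
        mul_le_mul_of_nonneg_left hone hτ'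
      have e1 : (1 + s) * (1 + τ) / 2 * ((1 + s - d) + β) ≤
          (1 + s) * (1 + τ) / 2 * (2 * (1 - x)) :=
        mul_le_mul_of_nonneg_left (by linarith) (by positivity)
      have hX : 0 ≤ 1 - x := by linarith [px.2]
      have key : (1 - τ) * (T + (1 + s) / 2 * β) + τ * (1 + s) * ((1 + s - d) + β) ≤
          ((1 - τ) * (1 + 2 * s + θ - (1 - θ) * dl) + 2 * (1 + s) * τ) * (1 - x) := by
        nlinarith
      refine key.trans ?_
      rcases hloss with hlo | hlo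
      · have e2 : W * (h * (1 - x)) ≤ W * i1 := mul_le_mul_of_nonneg_left hmi hW0
        have e3 : W * (1 - h) * (1 - x) ≤ W * dl * (1 - x) :=
          mul_le_mul_of_nonneg_right (mul_le_mul_of_nonneg_left hlo hW0) hX
        have e4 : ((1 - τ) * (1 + 2 * s + θ - (1 - θ) * dl) + 2 * (1 + s) * τ) =
            2 * U + W - W * dl := by
          rw [hU, hW]
          ring
        rw [e4]
        have e5 : (1 + s) * i1 = U * i1 + W * i1 := by rw [← hUW]; ring
        rw [e5]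
        nlinarith
      · have e2 : U * (c * (1 - x)) ≤ U * i0 := mul_le_mul_of_nonneg_left hi0 hU0
        have e3 : (1 + s) * (h * (1 - x)) ≤ (1 + s) * i1 := mul_le_mul_of_nonneg_left hmi hs2
        have e4 := mul_le_mul_of_nonneg_right hlo hX
        refine e4.trans ?_
        nlinarith
    · -- the first point of the row `1` is late
      have hli := hl hz h'
      have e2 : W * (2 * (1 - y)) ≤ W * i1 := mul_le_mul_of_nonneg_left hli hW0
      have e5 : (1 + s) * i1 = U * i1 + W * i1 := by rw [← hUW]; ring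
      obtain ⟨w, hw⟩ : ∃ w, w = 2 * (1 - x) - (1 + s - d) - β := ⟨_, rfl⟩
      have hw0 : 0 ≤ w := by linarith
      have hβw : β = 2 * (1 - x) - (1 + s - d) - w := by rw [hw]; ring
      -- what is needed
      have fin : ∀ r : ℝ, T ≤ (1 + s) * (1 - x) + (θ - (1 - s) / 2) * (1 + s - d) + r →
          (1 - τ) * r + W * β ≤ ((1 + s) * (1 + τ) / 2 - W) * w + W * i1 →
          (1 - τ) * (T + (1 + s) / 2 * β) + τ * (1 + s) * ((1 + s - d) + β) ≤
            U * i0 + (1 + s) * i1 := by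
        intro r hr1 hr2
        have e0 := mul_le_mul_of_nonneg_left hr1 hτ'
        rw [e5]
        have e6 : (1 - τ) * (T + (1 + s) / 2 * β) + τ * (1 + s) * ((1 + s - d) + β) ≤
            U * (2 * (1 - x)) + W * i1 := by
          rw [hβw] at hr2 ⊢
          rw [hU]
          rw [hW] at hr2 ⊢
          nlinarith
        linarith
      have hgs : W * s ≤ (1 + s) * (1 + τ) / 2 - W := by nlinarith
      have hg0 : 0 ≤ (1 + s) * (1 + τ) / 2 - W := le_trans (mul_nonneg hW0 hs) hgs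
      rcases le_total l' z0 with h4 | h4
      · have h5 : x' ≤ x := by rw [hx, hx']; exact mono_div h4
        have h6 := t_late hθ1 hs H.m1_eq H.m2_eq H.m_le
          (f1.trans (mul_le_mul_of_nonneg_left h5 hs)) l0 hd2 v0
        rw [← hT] at h6
        refine fin 0 (by linarith) ?_
        have h7 : W * β ≤ W * (2 * (1 - y)) := mul_le_mul_of_nonneg_left hβY hW0
        have h8 := mul_nonneg hg0 hw0
        linarith
      · rcases le_total l' z1 with h5 | h5
        · have h6 : C1 l' ≤ C1 z1 := H.mono1 h5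
          have h7 : β ≤ 2 * (1 - x') - (f + (1 + s) * (1 - x')) := by
            rw [hβ]
            linarith
          have h8 := t_mid (w := w) hθ1 hs hs1 H.m1_eq H.m2_eq H.m_le f1 l0 hd2 v0 hw0
            (by linarith)
          rw [← hT] at h8
          refine fin _ h8 ?_
          have h9 : W * β ≤ W * (2 * (1 - y)) := mul_le_mul_of_nonneg_left hβY hW0
          have h10 := mul_le_mul_of_nonneg_right hgs hw0
          have h11 : (1 - τ) * ((1 - θ) * s * w) = W * s * w := by rw [hW]; ring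
          linarith
        · have h6 : C0 z1 ≤ C0 l' := H.mono0 h5
          have h7 : f ≤ 1 + s - C0 l' := by
            have : 0 ≤ (1 + s) * (1 - x') := mul_nonneg (by linarith) (by linarith [px'.2])
            linarith
          have h8 := t_early hθ1 hs H.m1_eq H.m2_eq H.m_le h7 H.hf0 px.1 l0 hd2 v0
          rw [← hT] at h8
          refine fin _ h8 ?_
          have h9 : W * (β + (1 + s - C0 l')) ≤ W * (2 * (1 - y)) :=
            mul_le_mul_of_nonneg_left (by linarith) hW0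
          have h10 := mul_nonneg hg0 hw0
          have h11 : (1 - τ) * ((1 - θ) * (1 + s - C0 l')) = W * (1 + s - C0 l') := by
            rw [hW]
            ring
          linarith

end Pool.Agent.H65T
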