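import Pool.Agent.H65R.Reach2

/-!
# The number of the points which are reached, row by row
-/

set_option autoImplicit false

open Finset Classical

namespace Pool.Agent.H65T

open Pool.Agent.PlunTwo Pool.Agent.PlunRow Pool.Agent.H5St

theorem reach3 {q k : ℕ} {B : Set (ℕ × ℕ)} {Z : Finset (ℕ × ℕ)} {z0 z1 : ℕ} {δ c h : ℝ}
    (hK : Boxy q (kfold B k) δ c h) (hz0 : z0 ≤ q + 1) (hz1 : z1 ≤ q + 1)
    (h0 : z0 < q + 1 → (z0, 0) ∈ Z) (h1 : z1 < q + 1 → (z1, 1) ∈ Z) :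
    (c * δ * (((q + 1 : ℕ) : ℝ) - z0) ≤ (im q k B 0 Z).card) ∧
    (c * δ * (((q + 1 : ℕ) : ℝ) - z1) ≤ (im q k B 1 Z).card) ∧
    (δ * (2 * (((q + 1 : ℕ) : ℝ) - z0)) ≤ ((im q k B 0 Z).card : ℝ) + (im q k B 1 Z).card) ∧
    (z0 ≤ z1 → z1 - z0 ≤ q + 1 - z1 →
      δ * (h * (((q + 1 : ℕ) : ℝ) - z0)) ≤ (im q k B 1 Z).card) ∧
    (z0 ≤ z1 → q + 1 - z1 ≤ z1 - z0 →
      δ * (2 * (((q + 1 : ℕ) : ℝ) - z1)) ≤ (im q k B 1 Z).card) := by
  have i0 : (row 0 (kfold B k) (q + 1 - z0) : ℝ) ≤ (im q k B 0 Z).card := by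
    exact_mod_cast im_zero_ge h0
  have i1 : (row 0 (kfold B k) (q + 1 - z1) : ℝ) ≤ (im q k B 1 Z).card := by
    exact_mod_cast im_one_ge h1
  have i3 : (row 1 (kfold B k) (q + 1 - z0) : ℝ) ≤ (im q k B 1 Z).card := by
    have h := im_one_ge' (q := q) (k := k) (B := B) (Z := Z) (z0 := z0) (z1 := q + 1) hz0 le_rfl h0
      (fun h => absurd h (lt_irrefl _))
    have h' : row 1 (kfold B k) (q + 1 - z0) ≤ (im q k B 1 Z).card :=
      (Nat.le_add_right _ _).trans h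
    exact_mod_cast h'
  have r0 := hK.zero (q + 1 - z0) (by omega)
  have r1 := hK.zero (q + 1 - z1) (by omega)
  have b0 := hK.both (q + 1 - z0) (by omega)
  have b1 := hK.both (q + 1 - z1) (by omega)
  rw [Nat.cast_sub hz0] at r0 b0
  rw [Nat.cast_sub hz1] at r1 b1
  refine ⟨r0.trans i0, r1.trans i1, by linarith, fun hz h' => ?_, fun hz h' => ?_⟩
  · have i2 : (row 1 (kfold B k) (z1 - z0) : ℝ) + row 0 (kfold B k) (q + 1 - z1) ≤
        (im q k B 1 Z).card := by exact_mod_cast im_one_ge' hz hz1 h0 h1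
    have b2 := hK.stair (q + 1 - z1) (z1 - z0) h' (by omega)
    rw [Nat.cast_sub hz, Nat.cast_sub hz1] at b2
    linarith
  · have i2 : (row 1 (kfold B k) (z1 - z0) : ℝ) + row 0 (kfold B k) (q + 1 - z1) ≤
        (im q k B 1 Z).card := by exact_mod_cast im_one_ge' hz hz1 h0 h1
    have k3 : (row 1 (kfold B k) (q + 1 - z1) : ℝ) ≤ row 1 (kfold B k) (z1 - z0) := by
      exact_mod_cast row_mono 1 _ h'
    linarith

end Pool.Agent.H65T
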