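import Pool.Agent.H5St.TwoHall
import Pool.Agent.H65T.Feas3
import Pool.Agent.H65T.Reach3

/-!
# The weighted Hall condition for the mixed density
-/

set_option autoImplicit false

open Finset Classical

namespace Pool.Agent.H65T

open Pool.Agent.PlunTwo Pool.Agent.PlunRow Pool.Agent.H5St

/-- **The weighted Hall condition** for the mixed density. -/
theorem two_hall3 {q k : ℕ} (A B : Set (ℕ × ℕ)) {α δ θ τ s f dl c h : ℝ} {l' : ℕ} (hα : 0 < α)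
    (hδ : 0 < δ) (hθ : 0 ≤ θ) (hθ1 : θ ≤ 1)
    (hτ0 : 0 ≤ τ) (hτ1 : τ ≤ 1) (hτ : 2 * ((1 - θ) * (1 - τ)) ≤ 1 + τ) (hc : 1 + τ ≤ c)
    (hr0 : α * (q + 1 : ℕ) * (1 + s) ≤ row 0 A (q + 1))
    (hr1 : α * (q + 1 : ℕ) * (1 - s) ≤ row 1 A (q + 1))
    (hdl : 0 ≤ dl) (hdls : dl ≤ s) (hfd : f ≤ s - dl)
    (hK : Boxy q (kfold B k) δ c h)
    (hloss : 1 - h ≤ dl ∨
      (1 - τ) * (1 + 2 * s + θ - (1 - θ) * dl) + 2 * (1 + s) * τ ≤
        ((1 - τ) * (θ + s) + τ * (1 + s)) * c + (1 + s) * h)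
    (H : Prof (q + 1) s f (nm A (α * (q + 1 : ℕ)) (α * (q + 1 : ℕ) * (1 + s)) 0)
      (nm A (α * (q + 1 : ℕ)) (α * (q + 1 : ℕ) * (1 - s)) 1) l') :
    ∀ Z ⊆ src q A, ∑ a ∈ Z, dd A (δ / (α * (1 + s)) * ((1 - τ) * ((2 - θ) * s)))
      (δ / (α * (1 + s)) * ((1 - τ) * ((1 - s) / 2)))
      (δ / (α * (1 + s)) * ((1 - τ) * (θ + s) + τ * (1 + s))) (δ / α * ((1 + τ) / 2))
      (α * (q + 1 : ℕ) * (f / s)) (α * (q + 1 : ℕ) * (1 + s - 2 * f / (1 - s)))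
      (α * (q + 1 : ℕ) * (1 + s)) (α * (q + 1 : ℕ) * (1 - s)) a ≤
      ((1 - τ) * (θ + s) + τ * (1 + s)) / (1 + s) * (im q k B 0 Z).card +
        1 * (im q k B 1 Z).card := by
  intro Z hZ
  have hs := H.hs
  have hs1 := H.hs1
  have hL : (0 : ℝ) < ((q + 1 : ℕ) : ℝ) := by positivity
  have hs2 : 0 < 1 + s := by linarith
  obtain ⟨z0, hz0, hz0', hz0''⟩ := exists_first (fun x => (x, 0) ∈ Z) (q + 1)
  obtain ⟨z1, hz1, hz1', hz1''⟩ := exists_first (fun x => (x, 1) ∈ Z) (q + 1)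
  obtain ⟨t, ht⟩ : ∃ t, t = α * ((q + 1 : ℕ) : ℝ) := ⟨_, rfl⟩
  have ht0 : 0 < t := by rw [ht]; positivity
  rw [← ht] at hr0 hr1 H ⊢
  have hm12 := H.m_le
  have hm1 := H.m1_nonneg
  have hm2 := H.m2_nonneg
  have hm3 : 1 + s - 2 * f / (1 - s) ≤ 1 + s := by linarith
  have hm4 : f / s ≤ 1 + s := hm12.trans hm3
  have hm5 : 0 ≤ 1 + s - 2 * f / (1 - s) := hm1.trans hm12
  have hu : 0 ≤ δ / (α * (1 + s)) := by positivity
  have hτ' : 0 ≤ 1 - τ := by linarith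
  obtain ⟨U, hU⟩ : ∃ U, U = (1 - τ) * (θ + s) + τ * (1 + s) := ⟨_, rfl⟩
  have hU0 : 0 ≤ U := by
    rw [hU]
    exact add_nonneg (mul_nonneg hτ' (by linarith)) (mul_nonneg hτ0 hs2.le)
  have hsum := sum_dd hZ (A := A) (e1 := δ / (α * (1 + s)) * ((1 - τ) * ((2 - θ) * s)))
    (e2 := δ / (α * (1 + s)) * ((1 - τ) * ((1 - s) / 2)))
    (e3 := δ / (α * (1 + s)) * ((1 - τ) * (θ + s) + τ * (1 + s)))
    (e4 := δ / α * ((1 + τ) / 2)) (c1 := t * (f / s)) (c2 := t * (1 + s - 2 * f / (1 - s)))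
    (c3 := t * (1 + s)) (b := t * (1 - s))
    (mul_nonneg hu (mul_nonneg hτ' (mul_nonneg (by linarith) hs)))
    (mul_nonneg hu (mul_nonneg hτ' (by linarith)))
    (mul_nonneg hu (by rw [← hU]; exact hU0)) (by positivity) (by positivity)
    (mul_nonneg ht0.le hm5) (by positivity) (mul_nonneg ht0.le (by linarith))
    ((mul_le_mul_of_nonneg_left hm4 ht0.le).trans hr0)
    ((mul_le_mul_of_nonneg_left hm3 ht0.le).trans hr0) hr0 hr1 hz0 hz1 hz0' hz1'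
  refine hsum.trans ?_
  have hn0 : min (row 0 A z0 : ℝ) (t * (1 + s)) / t = nm A t (t * (1 + s)) 0 z0 := rfl
  have hn1 : min (row 0 A z0 : ℝ) (t * (1 + s)) = t * nm A t (t * (1 + s)) 0 z0 := by
    rw [nm, mul_div_cancel₀ _ ht0.ne']
  have hn2 : min (row 1 A z1 : ℝ) (t * (1 - s)) = t * nm A t (t * (1 - s)) 1 z1 := by
    rw [nm, mul_div_cancel₀ _ ht0.ne']
  rw [min_scale ht0 hm4, min_scale ht0 hm3, hn0, hn1, hn2]
  obtain ⟨g1, g2, g3, g4, g5⟩ := reach3 hK hz0 hz1 hz0'' hz1''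
  have hδL : 0 < δ * ((q + 1 : ℕ) : ℝ) := by positivity
  have hsub : ∀ z : ℕ, 1 - (z : ℝ) / ((q + 1 : ℕ) : ℝ) =
      (((q + 1 : ℕ) : ℝ) - z) / ((q + 1 : ℕ) : ℝ) := by
    intro z
    field_simp
  have key := feas3 (h := h) (i0 := ((im q k B 0 Z).card : ℝ) / (δ * ((q + 1 : ℕ) : ℝ)))
    (i1 := ((im q k B 1 Z).card : ℝ) / (δ * ((q + 1 : ℕ) : ℝ))) H hθ hθ1 hτ0 hτ1 hτ hc hdl hdls hfd
    hz0 hz1 ?_ ?_ ?_ (fun h1 h' => ?_) (fun h1 h' => ?_) hloss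
  · have e : δ / (α * (1 + s)) * ((1 - τ) * ((2 - θ) * s)) *
          (t * (f / s) - t * min (nm A t (t * (1 + s)) 0 z0) (f / s)) +
        δ / (α * (1 + s)) * ((1 - τ) * ((1 - s) / 2)) * (t * (1 + s - 2 * f / (1 - s)) -
          t * min (nm A t (t * (1 + s)) 0 z0) (1 + s - 2 * f / (1 - s))) +
        δ / (α * (1 + s)) * ((1 - τ) * (θ + s) + τ * (1 + s)) *
          (t * (1 + s) - t * nm A t (t * (1 + s)) 0 z0) +
        δ / α * ((1 + τ) / 2) * (t * (1 - s) - t * nm A t (t * (1 - s)) 1 z1) =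
        ((1 - τ) * (tl θ s (f / s) (2 * f / (1 - s)) (nm A t (t * (1 + s)) 0 z0) +
          (1 + s) / 2 * (1 - s - nm A t (t * (1 - s)) 1 z1)) +
          τ * (1 + s) * ((1 + s - nm A t (t * (1 + s)) 0 z0) +
            (1 - s - nm A t (t * (1 - s)) 1 z1))) * (δ * ((q + 1 : ℕ) : ℝ)) / (1 + s) := by
      unfold tl
      rw [ht]
      generalize min (nm A (α * ((q + 1 : ℕ) : ℝ)) (α * ((q + 1 : ℕ) : ℝ) * (1 + s)) 0 z0)
        (f / s) = w1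
      generalize min (nm A (α * ((q + 1 : ℕ) : ℝ)) (α * ((q + 1 : ℕ) : ℝ) * (1 + s)) 0 z0)
        (1 + s - 2 * f / (1 - s)) = w2
      generalize nm A (α * ((q + 1 : ℕ) : ℝ)) (α * ((q + 1 : ℕ) : ℝ) * (1 + s)) 0 z0 = w3
      generalize nm A (α * ((q + 1 : ℕ) : ℝ)) (α * ((q + 1 : ℕ) : ℝ) * (1 - s)) 1 z1 = w4
      generalize f / s = w5
      generalize 2 * f / (1 - s) = w6
      field_simp
      ring
    rw [e, div_le_iff₀ hs2]
    have key' := mul_le_mul_of_nonneg_right key hδL.le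
    refine key'.trans (le_of_eq ?_)
    rw [← hU]
    field_simp
  · rw [le_div_iff₀ hδL, hsub]
    refine le_trans (le_of_eq ?_) g1
    field_simp
  · rw [le_div_iff₀ hδL, hsub]
    refine le_trans (le_of_eq ?_) g2
    field_simp
  · rw [← add_div, le_div_iff₀ hδL, hsub]
    refine le_trans (le_of_eq ?_) g3
    field_simp
  · rw [le_div_iff₀ hδL, hsub]
    refine le_trans (le_of_eq ?_) (g4 h1 h')
    field_simp
  · rw [le_div_iff₀ hδL, hsub]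
    refine le_trans (le_of_eq ?_) (g5 h1 h')
    field_simp

end Pool.Agent.H65T
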