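import Pool.Agent.H10Star.Star

/-!
# The inequality (STAR) with a larger parameter
-/

set_option autoImplicit false

namespace Pool.Agent.H65T

/-- (STAR) for every `Q ≥ (2 - θ)(1 + s)/2`. -/
theorem star_Q {th s Q : ℝ} (h0 : 0 ≤ th) (h1 : th < 1) (hs0 : 0 ≤ s) (hs1 : s ≤ 1)
    (hQ : (2 - th) * (1 + s) / 2 ≤ Q) :
    1 + s ≤ 2 * s * (1 - (1 - s) / (2 * Q)) ^ th + (1 - s) * (1 + (2 - th) * s / Q) ^ th := by
  have hQ1 : (1 + s) / 2 < Q := by
    have : (1 + s) / 2 * 1 < (1 + s) / 2 * (2 - th) :=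
      mul_lt_mul_of_pos_left (by linarith) (by linarith)
    linarith
  have hQ0 : 0 < Q := by linarith
  have hx : 0 < 1 - (1 - s) / (2 * Q) := by
    rw [sub_pos, div_lt_one (by linarith)]
    linarith
  have hz0 : 0 ≤ (2 - th) * s / Q := div_nonneg (mul_nonneg (by linarith) hs0) hQ0.le
  have hA0 : 0 < Q - (1 - th) * (1 - s) / 2 := by
    have : (1 - th) * (1 - s) ≤ 1 * 1 := mul_le_mul (by linarith) (by linarith) (by linarith)
      (by norm_num)
    linarith
  have hB0 : 0 < Q + (1 - th) * (2 - th) * s := by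
    have : 0 ≤ (1 - th) * (2 - th) * s :=
      mul_nonneg (mul_nonneg (by linarith) (by linarith)) hs0
    linarith
  have ha := Pool.Agent.H10Star.harm_le_rpow hx h0 h1.le
  have hb := Pool.Agent.H10Star.harm_le_rpow (show 0 < 1 + (2 - th) * s / Q by linarith) h0 h1.le
  have ea : (1 - (1 - s) / (2 * Q)) / (1 + (1 - th) * (1 - (1 - s) / (2 * Q) - 1)) =
      1 - th * (1 - s) / 2 / (Q - (1 - th) * (1 - s) / 2) := by
    have hd : 1 + (1 - th) * (1 - (1 - s) / (2 * Q) - 1) =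
        (Q - (1 - th) * (1 - s) / 2) / Q := by
      field_simp
      ring
    rw [hd]
    obtain ⟨D, hD⟩ : ∃ D, D = Q - (1 - th) * (1 - s) / 2 := ⟨_, rfl⟩
    rw [← hD] at hA0 ⊢
    field_simp
    rw [hD]
    ring
  have eb : (1 + (2 - th) * s / Q) / (1 + (1 - th) * (1 + (2 - th) * s / Q - 1)) =
      1 + th * (2 - th) * s / (Q + (1 - th) * (2 - th) * s) := by
    have hd : 1 + (1 - th) * (1 + (2 - th) * s / Q - 1) =
        (Q + (1 - th) * (2 - th) * s) / Q := by
      field_simp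
      ring
    rw [hd]
    obtain ⟨D, hD⟩ : ∃ D, D = Q + (1 - th) * (2 - th) * s := ⟨_, rfl⟩
    rw [← hD] at hB0 ⊢
    field_simp
    rw [hD]
    ring
  rw [ea] at ha
  rw [eb] at hb
  have h2 : th * s * (1 - s) / (Q - (1 - th) * (1 - s) / 2) ≤
      (2 - th) * (th * s * (1 - s)) / (Q + (1 - th) * (2 - th) * s) := by
    rw [div_le_div_iff₀ hA0 hB0]
    have hc : 0 ≤ th * s * (1 - s) := mul_nonneg (mul_nonneg h0 hs0) (by linarith)
    have hAB : Q + (1 - th) * (2 - th) * s ≤ (2 - th) * (Q - (1 - th) * (1 - s) / 2) := by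
      have := mul_le_mul_of_nonneg_left hQ (show 0 ≤ 1 - th by linarith)
      linarith
    have := mul_le_mul_of_nonneg_left hAB hc
    linarith
  have h3 := mul_le_mul_of_nonneg_left ha (show 0 ≤ 2 * s by linarith)
  have h4 := mul_le_mul_of_nonneg_left hb (show 0 ≤ 1 - s by linarith)
  have e3 : 2 * s * (1 - th * (1 - s) / 2 / (Q - (1 - th) * (1 - s) / 2)) =
      2 * s - th * s * (1 - s) / (Q - (1 - th) * (1 - s) / 2) := by ring
  have e4 : (1 - s) * (1 + th * (2 - th) * s / (Q + (1 - th) * (2 - th) * s)) =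
      (1 - s) + (2 - th) * (th * s * (1 - s)) / (Q + (1 - th) * (2 - th) * s) := by ring
  rw [e3] at h3
  rw [e4] at h4
  linarith

end Pool.Agent.H65T
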